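import Pool.Agent.helper51.PC.Spec

set_option autoImplicit false

namespace Pool.Agent.PC

open MvPolynomial

universe u

theorem NNS_s0 (k : Type u) [Field k] (n d : ℕ) (h : 0 < n) :
    sg k n d (X ⟨0, h⟩) = X ⟨0, h⟩ := by
  unfold sg
  rw [aeval_X, dif_neg (by rintro ⟨h1, -⟩; exact absurd h1 (lt_irrefl 0)), add_zero]

theorem NNS_s1 (k : Type u) [Field k] (n d i : ℕ) (hi : i + 1 < d) (hn : d ≤ n) :
    sg k n d (X ⟨i + 1, by omega⟩) = X ⟨i + 1, by omega⟩ + X ⟨i, by omega⟩ := by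
  unfold sg
  rw [aeval_X, dif_pos ⟨Nat.succ_pos i, hi⟩]
  rfl

theorem NNS_const (k : Type u) [Field k] (n d : ℕ) (f : AA k n) :
    constantCoeff (sg k n d f) = constantCoeff f := by
  have h : (constantCoeff (R := k) (σ := Fin n)).comp (sg k n d).toRingHom =
      constantCoeff (R := k) (σ := Fin n) := by
    apply MvPolynomial.ringHom_ext
    · intro c
      show constantCoeff (sg k n d (C c)) = constantCoeff (C c)
      unfold sg
      rw [← MvPolynomial.algebraMap_eq, AlgHom.commutes]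
    · intro i
      show constantCoeff (sg k n d (X i)) = constantCoeff (X i)
      unfold sg
      rw [aeval_X, map_add]
      split_ifs with h
      · rw [constantCoeff_X, constantCoeff_X, add_zero]
      · rw [map_zero, add_zero]
  exact RingHom.congr_fun h f

theorem NNS_mem (k : Type u) [Field k] (n d : ℕ) (f : AA k n) : f ∈ RR k n d ↔ sg k n d f = f :=
  Iff.rfl

theorem NNS_ndvd (k : Type u) [Field k] (n : ℕ) (i j : Fin n) (hij : i ≠ j) :
    ¬ (X i : AA k n) ∣ X j := by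
  intro h
  rw [MvPolynomial.X_dvd_X] at h
  exact hij h

theorem NNS_ic {S : Type u} [CommRing S] [IsDomain S] [IsIntegrallyClosed S] (g q : S) (hq : q ≠ 0)
    (h : g ^ 2 = q ^ 3) : ∃ b : S, b * q = g := by
  have hq' : algebraMap S (FractionRing S) q ≠ 0 := by
    intro h0
    exact hq ((IsFractionRing.injective S (FractionRing S)) (h0.trans (map_zero _).symm))
  have hint : IsIntegral S (algebraMap S (FractionRing S) g / algebraMap S (FractionRing S) q) := by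
    refine ⟨Polynomial.X ^ 2 - Polynomial.C q, ?_, ?_⟩
    · exact Polynomial.monic_X_pow_sub_C _ two_ne_zero
    · rw [Polynomial.eval₂_sub, Polynomial.eval₂_C, Polynomial.eval₂_X_pow, div_pow, ← map_pow, h,
        map_pow, sub_eq_zero]
      field_simp
  obtain ⟨b, hb⟩ := (IsIntegrallyClosed.isIntegral_iff).1 hint
  rw [eq_div_iff hq', ← map_mul] at hb
  exact ⟨b, IsFractionRing.injective S (FractionRing S) hb⟩

theorem NNS : NNS_stmt.{u} := by
  intro k _ n d h4 hn x hx hdiv hprime hic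
  have n0 : 0 < n := by omega
  have n1 : 1 < n := by omega
  have n2 : 2 < n := by omega
  have n3 : 3 < n := by omega
  have s0 : sg k n d (X ⟨0, n0⟩) = X ⟨0, n0⟩ := NNS_s0 k n d n0
  have s1 : sg k n d (X ⟨1, n1⟩) = X ⟨1, n1⟩ + X ⟨0, n0⟩ := NNS_s1 k n d 0 (by omega) hn
  have s2 : sg k n d (X ⟨2, n2⟩) = X ⟨2, n2⟩ + X ⟨1, n1⟩ := NNS_s1 k n d 1 (by omega) hn
  have s3 : sg k n d (X ⟨3, n3⟩) = X ⟨3, n3⟩ + X ⟨2, n2⟩ := NNS_s1 k n d 2 (by omega) hn
  have hx' : (x : AA k n) = X ⟨0, n0⟩ := hx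
  have hdiv' : ∀ r : RR k n d, r ∈ Ideal.span {x} ↔ (X ⟨0, n0⟩ : AA k n) ∣ r := hdiv
  have hnd : ¬ (X ⟨0, n0⟩ : AA k n) ∣ X ⟨1, n1⟩ := by
    apply NNS_ndvd
    intro h
    have := congrArg Fin.val h
    exact absurd this (by norm_num)
  have hpr : Prime (X ⟨0, n0⟩ : AA k n) := MvPolynomial.X_prime
  clear hx hdiv
  generalize (X ⟨0, n0⟩ : AA k n) = x0 at *
  generalize (X ⟨1, n1⟩ : AA k n) = x1 at *
  generalize (X ⟨2, n2⟩ : AA k n) = x2 at *
  generalize (X ⟨3, n3⟩ : AA k n) = x3 at *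
  have hQ : sg k n d (x1 ^ 2 - 2 * x0 * x2 - x0 * x1) = x1 ^ 2 - 2 * x0 * x2 - x0 * x1 := by
    simp only [map_sub, map_mul, map_pow, s0, s1, s2, map_ofNat]
    ring
  have hG : sg k n d (x1 * (x1 ^ 2 - 2 * x0 * x2 - x0 * x1) - x0 * (x1 * x2 - 3 * x0 * x3 - 2 * x0 * x2)) =
      x1 * (x1 ^ 2 - 2 * x0 * x2 - x0 * x1) - x0 * (x1 * x2 - 3 * x0 * x3 - 2 * x0 * x2) := by
    simp only [map_sub, map_mul, map_pow, s0, s1, s2, s3, map_ofNat]
    ring
  let Q : RR k n d := ⟨x1 ^ 2 - 2 * x0 * x2 - x0 * x1, hQ⟩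
  let G : RR k n d := ⟨x1 * (x1 ^ 2 - 2 * x0 * x2 - x0 * x1) - x0 * (x1 * x2 - 3 * x0 * x3 - 2 * x0 * x2), hG⟩
  have hQv : (Q : AA k n) = x1 ^ 2 - 2 * x0 * x2 - x0 * x1 := rfl
  have hGv : (G : AA k n) = x1 * (x1 ^ 2 - 2 * x0 * x2 - x0 * x1) -
    x0 * (x1 * x2 - 3 * x0 * x3 - 2 * x0 * x2) := rfl
  have h1 : G ^ 2 - Q ^ 3 ∈ Ideal.span {x} := by
    rw [hdiv']
    push_cast
    rw [hQv, hGv]
    generalize hT : x1 * x2 - 3 * x0 * x3 - 2 * x0 * x2 = T
    generalize hQ' : x1 ^ 2 - 2 * x0 * x2 - x0 * x1 = q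
    have e : (x1 * q - x0 * T) ^ 2 - q ^ 3 = x0 * (q ^ 2 * (2 * x2 + x1) - 2 * x1 * q * T + x0 * T ^ 2) := by
      have e1 : x1 ^ 2 = q + 2 * x0 * x2 + x0 * x1 := by rw [← hQ']; ring
      linear_combination q ^ 2 * e1
    rw [e]
    exact dvd_mul_right _ _
  have h2 : Q ∉ Ideal.span {x} := by
    rw [hdiv', hQv]
    intro h
    have h3 : x0 ∣ x1 ^ 2 := by
      have e : x1 ^ 2 = (x1 ^ 2 - 2 * x0 * x2 - x0 * x1) + x0 * (2 * x2 + x1) := by ring
      rw [e]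
      exact dvd_add h (dvd_mul_right _ _)
    exact hnd (hpr.dvd_of_dvd_pow h3)
  set I : Ideal (RR k n d) := Ideal.span {x} with hI
  have hdom : IsDomain (RR k n d ⧸ I) := Ideal.Quotient.isDomain I
  have hq0 : (Ideal.Quotient.mk I Q) ≠ 0 := by
    intro h
    exact h2 (Ideal.Quotient.eq_zero_iff_mem.1 h)
  have hgq : (Ideal.Quotient.mk I G) ^ 2 = (Ideal.Quotient.mk I Q) ^ 3 := by
    rw [← map_pow, ← map_pow, Ideal.Quotient.eq]
    exact h1
  obtain ⟨hb, hhb⟩ := NNS_ic (S := RR k n d ⧸ I) (Ideal.Quotient.mk I G) (Ideal.Quotient.mk I Q) hq0 hgq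
  obtain ⟨h, rfl⟩ := Ideal.Quotient.mk_surjective hb
  have h5 : Ideal.Quotient.mk I (h * Q) = Ideal.Quotient.mk I G := by
    rw [map_mul]
    exact hhb
  rw [Ideal.Quotient.eq, hdiv'] at h5
  push_cast at h5
  rw [hQv, hGv] at h5
  have h6 : x0 ∣ x1 ^ 2 * ((h : AA k n) - x1) := by
    have e : x1 ^ 2 * ((h : AA k n) - x1) = ((h : AA k n) * (x1 ^ 2 - 2 * x0 * x2 - x0 * x1) -
        (x1 * (x1 ^ 2 - 2 * x0 * x2 - x0 * x1) - x0 * (x1 * x2 - 3 * x0 * x3 - 2 * x0 * x2))) +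
        x0 * ((h - x1) * (2 * x2 + x1) - (x1 * x2 - 3 * x0 * x3 - 2 * x0 * x2)) := by ring
    rw [e]
    exact dvd_add h5 (dvd_mul_right _ _)
  have h7 : x0 ∣ (h : AA k n) - x1 := by
    rcases hpr.dvd_or_dvd h6 with h8 | h8
    · exact absurd (hpr.dvd_of_dvd_pow h8) hnd
    · exact h8
  obtain ⟨f, hf⟩ := h7
  have h8 : sg k n d (h : AA k n) = h := h.2
  have h9 : (h : AA k n) = x1 + x0 * f := by rw [← hf]; ring
  rw [h9, map_add, map_mul, s0, s1] at h8
  have h10 : x0 * (1 + sg k n d f - f) = 0 := by linear_combination h8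
  have h11 : 1 + sg k n d f - f = 0 := by
    rcases mul_eq_zero.1 h10 with h12 | h12
    · exact absurd h12 hpr.ne_zero
    · exact h12
  have h12 := congrArg constantCoeff h11
  rw [map_sub, map_add, NNS_const, map_one, map_zero] at h12
  have : (1 : k) = 0 := by linear_combination h12
  exact one_ne_zero this

end Pool.Agent.PC
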