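import Pool.Agent.helper64.PC.SpecX

/-!
# Row pc:CLE
-/

set_option autoImplicit false

namespace Pool.Agent.PC

open Finset Pool.Agent.PB

theorem CLE : CLE_stmt := by
  classical
  intro P Om _ _ _ PF nu t M Φ
  let good : Finset (Finset P) → Prop := fun D => (∀ B ∈ D, PF B ∧ B.card ≤ 2 * t) ∧
      ct (fun w => (∃ B ∈ D, B ⊆ nu w) ∧ ¬ Φ w) * M ≤ D.card * Fintype.card Om
  have h0 : good ∅ := by
    refine ⟨fun B hB => absurd hB (notMem_empty B), ?_⟩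
    have h : ct (fun w : Om => (∃ B ∈ (∅ : Finset (Finset P)), B ⊆ nu w) ∧ ¬ Φ w) = 0 :=
      ct_false fun w hw => by
        obtain ⟨⟨B, hB, _⟩, _⟩ := hw
        exact notMem_empty B hB
    rw [h, zero_mul]
    exact Nat.zero_le _
  obtain ⟨D, hD, hmax⟩ := exists_max_image (univ.filter good) card
    ⟨∅, mem_filter.2 ⟨mem_univ _, h0⟩⟩
  have hDg : good D := (mem_filter.1 hD).2
  refine ⟨D, hDg.1, hDg.2, fun A hA hAt hc => ?_⟩
  by_contra hn
  have hins : good (insert A D) := by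
    refine ⟨fun B hB => ?_, ?_⟩
    · rcases mem_insert.1 hB with rfl | hB
      · exact ⟨hA, hAt⟩
      · exact hDg.1 B hB
    · have h1 : ct (fun w => (∃ B ∈ insert A D, B ⊆ nu w) ∧ ¬ Φ w) ≤
          ct (fun w => (∃ B ∈ D, B ⊆ nu w) ∧ ¬ Φ w) +
            ct (fun w => A ⊆ nu w ∧ ¬ Φ w ∧ ¬ ∃ B ∈ D, B ⊆ nu w) := by
        refine (ct_mono fun w hw => ?_).trans (ct_or _ _)
        obtain ⟨⟨B, hB, hBw⟩, hw2⟩ := hw
        by_cases hx : ∃ B ∈ D, B ⊆ nu w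
        · exact Or.inl ⟨hx, hw2⟩
        · rcases mem_insert.1 hB with rfl | hB
          · exact Or.inr ⟨hBw, hw2, hx⟩
          · exact absurd ⟨B, hB, hBw⟩ hx
      calc ct (fun w => (∃ B ∈ insert A D, B ⊆ nu w) ∧ ¬ Φ w) * M
          ≤ (ct (fun w => (∃ B ∈ D, B ⊆ nu w) ∧ ¬ Φ w) +
            ct (fun w => A ⊆ nu w ∧ ¬ Φ w ∧ ¬ ∃ B ∈ D, B ⊆ nu w)) * M := Nat.mul_le_mul_right _ h1
        _ = ct (fun w => (∃ B ∈ D, B ⊆ nu w) ∧ ¬ Φ w) * M +
            ct (fun w => A ⊆ nu w ∧ ¬ Φ w ∧ ¬ ∃ B ∈ D, B ⊆ nu w) * M := add_mul _ _ _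
        _ ≤ D.card * Fintype.card Om + Fintype.card Om := add_le_add hDg.2 hc
        _ = (insert A D).card * Fintype.card Om := by
            rw [card_insert_of_notMem hn, add_mul, one_mul]
  have h2 := hmax (insert A D) (mem_filter.2 ⟨mem_univ _, hins⟩)
  rw [card_insert_of_notMem hn] at h2
  omega

end Pool.Agent.PC
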